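import Pool.Agent.Q12.MI2.Stm3

/-!
# Project MI2, job A5: extension of scalars of an isomorphism of group algebras
-/

set_option autoImplicit false

namespace Pool.Agent.Q150.MI2

open Q12.MI2

universe u v w w'

theorem aext {R : Type*} [Field R] {G : Type*} [Group G] {B : Type*} [Ring B] [Algebra R B]
    {f g : MonoidAlgebra R G →ₐ[R] B}
    (h : ∀ x, f (MonoidAlgebra.of R G x) = g (MonoidAlgebra.of R G x)) : f = g :=
  (MonoidAlgebra.lift R B G).symm.injective (MonoidHom.ext h)

section

variable (F : Type u) [Field F] (K : Type v) [Field K] [Algebra F K]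

/-- the inclusion of the group algebras -/
noncomputable def inc (G : Type w) [Group G] : MonoidAlgebra F G →ₐ[F] MonoidAlgebra K G :=
  MonoidAlgebra.lift F (MonoidAlgebra K G) G (MonoidAlgebra.of K G)

theorem inc_of (G : Type w) [Group G] (g : G) :
    inc F K G (MonoidAlgebra.of F G g) = MonoidAlgebra.of K G g := by
  rw [inc, MonoidAlgebra.lift_of]

variable {G : Type w} [Group G] {H : Type w'} [Group H]

/-- extension of scalars -/
noncomputable def ext' (e : MonoidAlgebra F G →ₐ[F] MonoidAlgebra F H) :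
    MonoidAlgebra K G →ₐ[K] MonoidAlgebra K H :=
  MonoidAlgebra.lift K (MonoidAlgebra K H) G
    ((((inc F K H : MonoidAlgebra F H →* MonoidAlgebra K H)).comp
      (e : MonoidAlgebra F G →* MonoidAlgebra F H)).comp (MonoidAlgebra.of F G))

theorem ext'_of (e : MonoidAlgebra F G →ₐ[F] MonoidAlgebra F H) (g : G) :
    ext' F K e (MonoidAlgebra.of K G g) = inc F K H (e (MonoidAlgebra.of F G g)) := by
  rw [ext', MonoidAlgebra.lift_of]
  rfl

theorem ext'_inc (e : MonoidAlgebra F G →ₐ[F] MonoidAlgebra F H) (a : MonoidAlgebra F G) :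
    ext' F K e (inc F K G a) = inc F K H (e a) := by
  have h : ((ext' F K e).restrictScalars F).comp (inc F K G) = (inc F K H).comp e := by
    refine aext fun g => ?_
    change ext' F K e (inc F K G (MonoidAlgebra.of F G g)) = inc F K H (e (MonoidAlgebra.of F G g))
    rw [inc_of, ext'_of]
  exact DFunLike.congr_fun h a

end

theorem a5 : S_A5.{u, v, w, w'} := by
  intro F _ K _ _ G _ H _ ⟨e⟩
  refine ⟨AlgEquiv.ofAlgHom (ext' F K (e : MonoidAlgebra F G →ₐ[F] MonoidAlgebra F H))
    (ext' F K (e.symm : MonoidAlgebra F H →ₐ[F] MonoidAlgebra F G)) ?_ ?_⟩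
  · refine aext fun h => ?_
    change ext' F K _ (ext' F K _ (MonoidAlgebra.of K H h)) = MonoidAlgebra.of K H h
    rw [ext'_of, ext'_inc]
    change inc F K H (e (e.symm _)) = _
    rw [AlgEquiv.apply_symm_apply, inc_of]
  · refine aext fun h => ?_
    change ext' F K _ (ext' F K _ (MonoidAlgebra.of K G h)) = MonoidAlgebra.of K G h
    rw [ext'_of, ext'_inc]
    change inc F K G (e.symm (e _)) = _
    rw [AlgEquiv.symm_apply_apply, inc_of]

end Pool.Agent.Q150.MI2
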