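import Pool.Agent.Q12.MI2.Stm3

/-!
# Project MI2, job M1: the twist matrix of the lattice is given by the torus
-/

set_option autoImplicit false
set_option linter.unusedSectionVars false

namespace Pool.Agent.Q150.MI2

open Q12.MI2 Finset Q21.MI

universe u v w w'

section

variable {K : Type*} [Field K] [CharP K 2] {ι₁ ι₂ : Type*} [Fintype ι₁] [DecidableEq ι₁]
  [Fintype ι₂] [DecidableEq ι₂]

/-- pairing -/
def pa (ζ : (ι₁ → ZMod 2) →+ K) (y : ι₁ ⊕ ι₂ → K) : K :=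
  ∑ i : ι₁, ζ (Pi.single i 1) * y (Sum.inl i)

theorem pa_add_left (ζ ζ' : (ι₁ → ZMod 2) →+ K) (y : ι₁ ⊕ ι₂ → K) :
    pa (ζ + ζ') y = pa ζ y + pa ζ' y := by
  simp only [pa, AddMonoidHom.add_apply, add_mul, Finset.sum_add_distrib]

theorem pa_smul_left (k : K) (ζ : (ι₁ → ZMod 2) →+ K) (y : ι₁ ⊕ ι₂ → K) :
    pa (k • ζ) y = k * pa ζ y := by
  simp only [pa, AddMonoidHom.smul_apply, smul_eq_mul, Finset.mul_sum, mul_assoc]

theorem pa_add_right (ζ : (ι₁ → ZMod 2) →+ K) (y y' : ι₁ ⊕ ι₂ → K) :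
    pa ζ (y + y') = pa ζ y + pa ζ y' := by
  simp only [pa, Pi.add_apply, mul_add, Finset.sum_add_distrib]

theorem pa_smul_right (k : K) (ζ : (ι₁ → ZMod 2) →+ K) (y : ι₁ ⊕ ι₂ → K) :
    pa ζ (k • y) = k * pa ζ y := by
  simp only [pa, Pi.smul_apply, smul_eq_mul, Finset.mul_sum]
  exact Finset.sum_congr rfl fun i _ => by ring

theorem pa_sum_right {α : Type*} (s : Finset α) (ζ : (ι₁ → ZMod 2) →+ K)
    (y : α → ι₁ ⊕ ι₂ → K) : pa ζ (∑ a ∈ s, y a) = ∑ a ∈ s, pa ζ (y a) := by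
  simp only [pa, Finset.sum_apply, Finset.mul_sum]
  exact Finset.sum_comm

theorem cst_sq {ι : Type*} (x : ι → ZMod 2) (i : ι) : (cst K x i) ^ 2 = cst K x i := by
  simp only [cst]
  rw [← map_pow]
  congr 1
  generalize x i = a
  revert a
  decide

theorem pa_sq (u : (ι₁ → ZMod 2) →+ K) (y : ι₁ ⊕ ι₂ → K) :
    pa (Q12.MI2.sq u) (fun i => y i ^ 2) = pa u y ^ 2 := by
  simp only [pa, sum_pow_char, mul_pow]
  rfl

omit [DecidableEq ι₁] [DecidableEq ι₂] in
theorem map_sq_mulVec (P : Matrix (ι₁ ⊕ ι₂) (ι₁ ⊕ ι₂) K) (x : ι₁ ⊕ ι₂ → ZMod 2) :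
    (P.map (fun a => a ^ 2)).mulVec (cst K x) = fun i => (P.mulVec (cst K x)) i ^ 2 := by
  funext i
  simp only [Matrix.mulVec, dotProduct, Matrix.map_apply, sum_pow_char, mul_pow, cst_sq]

theorem sq_add (u u' : (ι₁ → ZMod 2) →+ K) :
    Q12.MI2.sq (u + u') = Q12.MI2.sq u + Q12.MI2.sq u' := by
  refine DFunLike.ext _ _ fun x => ?_
  change (u x + u' x) ^ 2 = u x ^ 2 + u' x ^ 2
  exact add_pow_char _ _ _

theorem sq_smul (k : K) (u : (ι₁ → ZMod 2) →+ K) :
    Q12.MI2.sq (k • u) = k ^ 2 • Q12.MI2.sq u := by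
  refine DFunLike.ext _ _ fun x => ?_
  change (k * u x) ^ 2 = k ^ 2 * u x ^ 2
  exact mul_pow _ _ _

theorem sq_zero' : Q12.MI2.sq (0 : (ι₁ → ZMod 2) →+ K) = 0 := by
  refine DFunLike.ext _ _ fun x => ?_
  change (0 : K) ^ 2 = 0
  exact zero_pow (by norm_num)

theorem sq_surj (hs : ∀ a : K, ∃ b, b ^ 2 = a) (ζ : (ι₁ → ZMod 2) →+ K) :
    ∃ u : (ι₁ → ZMod 2) →+ K, Q12.MI2.sq u = ζ := by
  choose r hr using hs
  have hinj : ∀ a b : K, a ^ 2 = b ^ 2 → a = b := by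
    intro a b h
    have : (a - b) ^ 2 = 0 := by rw [sub_pow_char, h, sub_self]
    exact sub_eq_zero.mp (pow_eq_zero_iff (by norm_num) |>.mp this)
  refine ⟨AddMonoidHom.mk' (fun x => r (ζ x)) ?_, ?_⟩
  · intro a b
    apply hinj
    rw [hr, add_pow_char, hr, hr, map_add]
  · exact DFunLike.ext _ _ fun x => hr _

end

theorem m1 : S_M1.{u, v, w, w'} := by
  intro K _ _ hs A _ _ G _ _ H _ ι₁ ι₂ κ _ _ _ _ _ _ B C c P₀ hP₀ hP1 hP2 T hspan htor g hg
  set M₁ : Matrix (ι₁ ⊕ ι₂) (ι₁ ⊕ ι₂) K := P₀.map (fun a => a ^ 2) * P₀⁻¹ with hM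
  have hdet : IsUnit P₀.det := isUnit_iff_ne_zero.mpr hP₀
  -- the key identity for toral `u` on the vectors of the lattice
  have key1 : ∀ u : (ι₁ → ZMod 2) →+ K, (∀ h, su B C c u h = 0 ∨ su B C c u h = 1) →
      ∀ x : ι₁ ⊕ ι₂ → ZMod 2, pa (Q12.MI2.sq u) (M₁.mulVec (P₀.mulVec (cst K x))) =
        pa ((1 + g) (Q12.MI2.sq u)) (P₀.mulVec (cst K x)) := by
    intro u hu x
    obtain ⟨h, hh⟩ := hP2 x
    have h1 : M₁.mulVec (P₀.mulVec (cst K x)) = fun i => (P₀.mulVec (cst K x)) i ^ 2 := by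
      rw [hM, ← map_sq_mulVec, Matrix.mulVec_mulVec, Matrix.mul_assoc,
        Matrix.nonsing_inv_mul _ hdet, Matrix.mul_one]
    have h2 : su B C c u h = pa u (P₀.mulVec (cst K x)) := by
      rw [← hh]; rfl
    have h3 : pa u (P₀.mulVec (cst K x)) ^ 2 = pa u (P₀.mulVec (cst K x)) := by
      rw [← h2]
      rcases hu h with h | h <;> rw [h] <;> norm_num
    have h4 : (1 + g) (Q12.MI2.sq u) = u := by
      rw [LinearMap.add_apply, Module.End.one_apply, hg]
      refine (DFunLike.ext _ _ fun y => ?_).symm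
      rw [htor u hu y, AddMonoidHom.add_apply]
      congr 1
      rw [Tor.bq, AddMonoidHom.finsetSum_apply]
      rw [← Finset.sum_subset (Finset.subset_univ (Tor.nz (ι₁ → ZMod 2)))]
      · rfl
      · intro v _ hv
        have : v = 0 := by
          by_contra h0
          exact hv (by unfold Tor.nz; simp [h0])
        rw [this, map_zero, zero_mul]
    rw [h1, pa_sq, h3, h4]
  have key2 : ∀ u : (ι₁ → ZMod 2) →+ K, (∀ h, su B C c u h = 0 ∨ su B C c u h = 1) →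
      ∀ y : ι₁ ⊕ ι₂ → K, pa (Q12.MI2.sq u) (M₁.mulVec y) = pa ((1 + g) (Q12.MI2.sq u)) y := by
    intro u hu y
    have h1 : y = P₀.mulVec (P₀⁻¹.mulVec y) := by
      rw [Matrix.mulVec_mulVec, Matrix.mul_nonsing_inv _ hdet, Matrix.one_mulVec]
    have h2 : ∀ z : ι₁ ⊕ ι₂ → K, pa (Q12.MI2.sq u) (M₁.mulVec (P₀.mulVec z)) =
        pa ((1 + g) (Q12.MI2.sq u)) (P₀.mulVec z) := by
      intro z
      have h3 : z = ∑ j, z j • cst K (Pi.single j (1 : ZMod 2)) := by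
        funext i
        rw [Finset.sum_apply, Finset.sum_eq_single i]
        · simp [cst]
        · intro j _ hj
          simp [cst, Pi.single_eq_of_ne (Ne.symm hj)]
        · intro h; exact absurd (Finset.mem_univ _) h
      rw [h3, Matrix.mulVec_sum, Matrix.mulVec_sum, pa_sum_right, pa_sum_right]
      refine Finset.sum_congr rfl fun j _ => ?_
      rw [Matrix.mulVec_smul, Matrix.mulVec_smul, pa_smul_right, pa_smul_right, key1 u hu]
    rw [h1]
    exact h2 _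
  have key3 : ∀ (ζ : (ι₁ → ZMod 2) →+ K) (y : ι₁ ⊕ ι₂ → K),
      pa ζ (M₁.mulVec y) = pa ((1 + g) ζ) y := by
    have h1 : ∀ u : (ι₁ → ZMod 2) →+ K, ∀ y : ι₁ ⊕ ι₂ → K,
        pa (Q12.MI2.sq u) (M₁.mulVec y) = pa ((1 + g) (Q12.MI2.sq u)) y := by
      intro u
      have hu : u ∈ Submodule.span K {u : (ι₁ → ZMod 2) →+ K |
          ∀ h, su B C c u h = 0 ∨ su B C c u h = 1} := by rw [hspan]; trivial
      induction hu using Submodule.span_induction with
      | mem u hu => exact key2 u hu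
      | zero =>
        intro y
        rw [sq_zero', map_zero]
        simp [pa]
      | add u u' _ _ h h' =>
        intro y
        rw [sq_add, map_add, pa_add_left, pa_add_left, h y, h' y]
      | smul k u _ h =>
        intro y
        rw [sq_smul, map_smul, pa_smul_left, pa_smul_left, h y]
    intro ζ y
    obtain ⟨u, hu⟩ := sq_surj hs ζ
    rw [← hu]
    exact h1 u y
  have hcrd : ∀ (i : ι₁) (z : ι₁ ⊕ ι₂ → K), pa (crd K i) z = z (Sum.inl i) := by
    intro i z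
    rw [pa, Finset.sum_eq_single i]
    · simp [crd]
    · intro j _ hj
      simp [crd, Pi.single_eq_of_ne (Ne.symm hj)]
    · intro h; exact absurd (Finset.mem_univ _) h
  have hent : ∀ (i : ι₁) (j : ι₁ ⊕ ι₂), M₁ (Sum.inl i) j =
      pa ((1 + g) (crd K i)) (Pi.single j 1) := by
    intro i j
    rw [← key3, hcrd, Matrix.mulVec_single_one]
    rfl
  refine ⟨M₁.toBlocks₂₁, M₁.toBlocks₂₂, ?_⟩
  rw [← Matrix.fromBlocks_toBlocks M₁]
  congr 1
  · ext i j
    change M₁ (Sum.inl i) (Sum.inl j) = mat (1 + g) i j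
    rw [hent, pa, Finset.sum_eq_single j]
    · simp [mat]
    · intro k _ hk
      simp [Pi.single_eq_of_ne, hk]
    · intro h; exact absurd (Finset.mem_univ _) h
  · ext i j
    change M₁ (Sum.inl i) (Sum.inr j) = 0
    rw [hent, pa]
    refine Finset.sum_eq_zero fun k _ => ?_
    simp

end Pool.Agent.Q150.MI2
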